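import Pool.Agent.Q188.HM.Basic

/-!
# Hölder interval maps do not have metric mean dimension one (MP_428550_an, Q1)
-/

set_option autoImplicit false

open Pool.Agent.Q188.HM

namespace Pool.Agent.Results.MP_428550_an.HolderBound

/-- For every `α ∈ (0,1]`, an `α`-Hölder map of `[0,1]` has upper metric mean dimension at most
`1 - α`; in particular neither its upper nor its lower metric mean dimension is one. -/
theorem result (α : ℝ) (h0 : 0 < α) (h1 : α ≤ 1) (φ : I → I) (h : IsHolder φ α) :
    upperMdim φ ≤ ((1 - α : ℝ) : EReal) ∧ upperMdim φ ≠ 1 ∧ lowerMdim φ ≠ 1 := by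
  have hup := upperMdim_le h0.le h1 h
  have hlt : ((1 - α : ℝ) : EReal) < 1 := by
    have : 1 - α < 1 := by linarith
    exact_mod_cast this
  refine ⟨hup, (hup.trans_lt hlt).ne, (((lowerMdim_le_upperMdim φ).trans hup).trans_lt hlt).ne⟩

end Pool.Agent.Results.MP_428550_an.HolderBound
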